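import Pool.Agent.W500.FL.Stm

set_option autoImplicit false

namespace Pool.Agent.W374.FL.STA

open Polynomial Pool.Agent.W500.FL

theorem main : S_J → S_NT → S_FR → S_R → S_V → S_U → S_DEL → S_STA := by
  intro hJ hNT hFR hR hV hU hDEL K _ _ _ p _ _ hchar H t hH ht
  classical
  have hp : p.Prime := Fact.out
  obtain ⟨J1, J2, J3, J4, J5, J6, J7⟩ := hJ K
  obtain ⟨w, hw1, hw2, hw3⟩ := hU K p H
  -- nonvanishing facts
  have hd1 : ∀ h ∈ H, derivative h ≠ 0 := fun h hh h0 => hH h hh (by rw [h0]; simp)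
  have hd0 : ∀ h ∈ H, h ≠ 0 := fun h hh h0 => hd1 h hh (by rw [h0]; simp)
  -- the finite set
  set S : Finset K[X] := H ∪ H.image derivative ∪ H.image (fun h => derivative (derivative h)) ∪
    ((H ×ˢ H).image (fun q => derivative q.1 - derivative q.2)).filter (fun f => f ≠ 0) ∪
    ((H ×ˢ H).image (fun q => w q.1 - w q.2)).filter (fun f => f ≠ 0) with hS
  have hSne : ∀ f ∈ S, f ≠ 0 := by
    intro f hf
    simp only [hS, Finset.mem_union, Finset.mem_image, Finset.mem_filter] at hf
    rcases hf with (((hf | ⟨h, hh, rfl⟩) | ⟨h, hh, rfl⟩) | hf) | hf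
    · exact hd0 f hf
    · exact hd1 h hh
    · exact hH h hh
    · exact hf.2
    · exact hf.2
  obtain ⟨V, hVm, hV4, hVd⟩ := hV K S hSne
  have hV0 : ∀ h ∈ H, h ∣ V := fun h hh => hVd h (by
    simp only [hS, Finset.mem_union]; exact Or.inl (Or.inl (Or.inl (Or.inl hh))))
  have hV1 : ∀ h ∈ H, derivative h ∣ V := fun h hh => hVd _ (by
    simp only [hS, Finset.mem_union]
    exact Or.inl (Or.inl (Or.inl (Or.inr (Finset.mem_image_of_mem _ hh)))))
  have hV2 : ∀ h ∈ H, derivative (derivative h) ∣ V := fun h hh => hVd _ (by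
    simp only [hS, Finset.mem_union]
    exact Or.inl (Or.inl (Or.inr (Finset.mem_image_of_mem
      (fun h => derivative (derivative h)) hh))))
  have hV3 : ∀ h ∈ H, ∀ k ∈ H, derivative h ≠ derivative k → derivative h - derivative k ∣ V :=
    fun h hh k hk hne => hVd _ (by
      simp only [hS, Finset.mem_union, Finset.mem_filter, Finset.mem_image, Finset.mem_product]
      exact Or.inl (Or.inr ⟨⟨(h, k), ⟨hh, hk⟩, rfl⟩, sub_ne_zero.2 hne⟩))
  have hV4' : ∀ h ∈ H, ∀ k ∈ H, h ≠ k → w h - w k ∣ V :=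
    fun h hh k hk hne => hVd _ (by
      simp only [hS, Finset.mem_union, Finset.mem_filter, Finset.mem_image, Finset.mem_product]
      exact Or.inr ⟨⟨(h, k), ⟨hh, hk⟩, rfl⟩, sub_ne_zero.2 (hw3 h hh k hk hne)⟩)
  -- the exponent
  set l : ℕ := V.natDegree + (∑ h ∈ H, (w h).natDegree) + 1 with hl
  set n : ℕ := p * (2 * l) with hn
  have hln : l ≤ n := by
    rw [hn]
    calc l = 1 * (1 * l) := by ring
      _ ≤ p * (2 * l) := Nat.mul_le_mul hp.one_le (Nat.mul_le_mul (by norm_num) le_rfl)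
  have hwdeg : ∀ h ∈ H, (w h).natDegree < n := by
    intro h hh
    have := Finset.single_le_sum (f := fun h => (w h).natDegree) (fun _ _ => Nat.zero_le _) hh
    omega
  have hVdeg : V.natDegree < n := by omega
  set u : K[X] → K[X] := fun h => w h + X ^ n with hu
  have hum : ∀ h ∈ H, (u h).Monic := by
    intro h hh
    have : (w h).degree < (n : ℕ) := by
      rcases eq_or_ne (w h) 0 with h0 | h0
      · rw [h0, degree_zero]; exact WithBot.bot_lt_coe _
      · rw [degree_eq_natDegree h0]; exact_mod_cast hwdeg h hh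
    simp only [hu]
    rw [add_comm]
    exact monic_X_pow_add this
  have hud : ∀ h ∈ H, (u h).natDegree = n := by
    intro h hh
    simp only [hu]
    rw [natDegree_add_eq_right_of_natDegree_lt (by rw [natDegree_X_pow]; exact hwdeg h hh),
      natDegree_X_pow]
  have hu1 : ∀ h ∈ H, derivative (u h) = 1 := by
    intro h hh
    simp only [hu]
    rw [derivative_add, hw1 h hh, derivative_X_pow]
    have : ((n : ℕ) : K) = 0 := by
      rw [CharP.cast_eq_zero_iff K p]
      exact ⟨2 * l, rfl⟩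
    rw [this]
    simp
  -- smooth and rough parts
  have hRR : ∀ h ∈ H, ∃ σ ρ : K[X], σ.Monic ∧ ρ.Monic ∧ u h = σ * ρ ∧ σ ∣ V ∧ IsCoprime ρ V ∧
      Squarefree ρ ∧ 0 < ρ.natDegree := fun h hh =>
    hR K (u h) V (hum h hh) (hu1 h hh) hVm (by rw [hud h hh]; exact hVdeg)
  choose! σ ρ hσρ using hRR
  have hcop : ∀ h ∈ H, ∀ k ∈ H, h ≠ k → IsCoprime (ρ h) (ρ k) := by
    intro h hh k hk hne
    obtain ⟨-, -, e1, -, c1, -, -⟩ := hσρ h hh
    obtain ⟨-, -, e2, -, -, -, -⟩ := hσρ k hk
    have d1 : u h - u k ∣ V := by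
      have : u h - u k = w h - w k := by simp only [hu]; ring
      rw [this]; exact hV4' h hh k hk hne
    have c2 : IsCoprime (ρ h) (u h - u k) := c1.of_isCoprime_of_dvd_right d1
    have c3 : IsCoprime (ρ h) (u k) := by
      have e3 : u k = -(u h - u k) + ρ h * σ h := by rw [e1]; ring
      rw [e3]
      exact (IsCoprime.add_mul_left_right_iff).2 c2.neg_right
    refine c3.of_isCoprime_of_dvd_right ?_
    rw [e2]
    exact dvd_mul_left _ _
  -- the residues
  have hxx : ∀ h ∈ H, ∃ x : K[X], jac (ρ h) x =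
      quadraticChar K (derivative h).leadingCoeff ^ (σ h).natDegree * t h := by
    intro h hh
    obtain ⟨-, hρm, -, -, -, hρs, hρd⟩ := hσρ h hh
    refine hNT K hchar (ρ h) hρm hρs hρd _ ?_
    have hm : (derivative h).leadingCoeff ≠ 0 := leadingCoeff_ne_zero.2 (hd1 h hh)
    rcases quadraticChar_dichotomy hm with hc | hc
    · rw [hc, one_pow, one_mul]; exact ht h hh
    · rw [hc]
      rcases neg_one_pow_eq_or ℤ (σ h).natDegree with he | he
      · rw [he, one_mul]; exact ht h hh
      · rw [he]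
        rcases ht h hh with h1 | h1 <;> rw [h1] <;> simp
  choose! x hx using hxx
  obtain ⟨Y, hYm, hY4, hYN, hYd⟩ := hFR K p V H ρ
    (fun h => C (derivative h).leadingCoeff⁻¹ * derivative h * x h - derivative h)
    (fun h hh => ⟨(hσρ h hh).2.1, (hσρ h hh).2.2.2.2.2.1, (hσρ h hh).2.2.2.2.1⟩) hcop
    ((∑ h ∈ H, h.natDegree) + 1)
  have hdeg : ∀ h ∈ H, h.natDegree < (V * Y).natDegree := by
    intro h hh
    rw [hVm.natDegree_mul hYm]
    have := Finset.single_le_sum (f := fun h : K[X] => h.natDegree) (fun _ _ => Nat.zero_le _) hh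
    omega
  refine ⟨V, Y, fun h => w h - h + X ^ n, hVm, hYm, hV4, hY4,
    fun h hh => ⟨hV0 h hh, hV1 h hh, hV2 h hh, hdeg h hh⟩, hV3, ?_, ?_⟩
  · intro h hh k hk he
    simp only
    rw [hw2 h hh k hk he]
  · intro h hh Δ b m hΔm hbm hdb hbΔ
    simp only
    have e0 : w h - h + X ^ n + h = u h := by simp only [hu]; ring
    rw [e0]
    have hm0 : m ≠ 0 := by
      rintro rfl
      exact hd1 h hh (by rw [hdb]; simp)
    have hml : (derivative h).leadingCoeff = m := by
      rw [hdb, leadingCoeff_mul, leadingCoeff_C, hbm.leadingCoeff, mul_one]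
    have hbe : C m⁻¹ * derivative h = b := by
      rw [hdb, ← mul_assoc, ← C_mul, inv_mul_cancel₀ hm0, C_1, one_mul]
    obtain ⟨hσm, hρm, e1, hσV, c1, hρs, hρd⟩ := hσρ h hh
    have hbV : b ∣ V := (Dvd.intro_left (C m) hdb.symm).trans (hV1 h hh)
    -- the rough part
    have hρΔ : ρ h ∣ Δ - x h := by
      have h1 := hYd h hh
      rw [hml, hbe] at h1
      have h2 : V ^ p * Y ^ p - (b * x h - derivative h) = b * (Δ - x h) := by
        rw [mul_sub, hbΔ, mul_pow]; ring
      rw [h2] at h1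
      exact (c1.of_isCoprime_of_dvd_right hbV).dvd_of_dvd_mul_left h1
    -- the smooth part
    have hVΔ : V ∣ Δ - C m := by
      have hA : (V * Y).Monic := hVm.mul hYm
      have hdd : (derivative h).natDegree < (V * Y).natDegree := by
        have := natDegree_derivative_le h
        have := hdeg h hh
        omega
      obtain ⟨Δ1, b1, m1, hm1, hb1, hdb1, hΔ1, hbΔ1, hVΔ1, -, -, -⟩ :=
        (hDEL K p V (V * Y) hVm hA (dvd_mul_right _ _)).1 (derivative h) (hd1 h hh) (hH h hh)
          (hV1 h hh) (hV2 h hh) hdd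
      have hml1 : (derivative h).leadingCoeff = m1 := by
        rw [hdb1, leadingCoeff_mul, leadingCoeff_C, hb1.leadingCoeff, mul_one]
      have hmm : m1 = m := hml1.symm.trans hml
      have hbb : b1 = b := by
        have h3 : C m * b1 = C m * b := by rw [← hmm, ← hdb1, hdb, hmm]
        exact mul_left_cancel₀ (by simpa using hm0) h3
      have hΔΔ : Δ1 = Δ := by
        have h4 : b * Δ1 = b * Δ := by rw [hbΔ, ← hbΔ1, hbb]
        exact mul_left_cancel₀ hbm.ne_zero h4
      rw [← hΔΔ, ← hmm]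
      exact hVΔ1
    have hσΔ : σ h ∣ Δ - C m := hσV.trans hVΔ
    have hum' := hum h hh
    rw [J5 Δ (u h) hΔm hum', hud h hh]
    have hs1 : quadraticChar K (-1) ^ (Δ.natDegree * n) = 1 := by
      have h2 : quadraticChar K (-1) ^ 2 = 1 := quadraticChar_sq_one (neg_ne_zero.2 one_ne_zero)
      rw [show Δ.natDegree * n = 2 * (Δ.natDegree * (p * l)) by rw [hn]; ring, pow_mul, h2, one_pow]
    rw [hs1, one_mul, e1, J2 (σ h) (ρ h) Δ hσm hρm, J3 (σ h) Δ (C m) hσm hσΔ, J4 (σ h) m hσm,
      J3 (ρ h) Δ (x h) hρm hρΔ, hx h hh, hml]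
    have h5 : quadraticChar K m ^ (σ h).natDegree * quadraticChar K m ^ (σ h).natDegree = 1 := by
      rw [← mul_pow, ← pow_two, quadraticChar_sq_one hm0, one_pow]
    rw [← mul_assoc, h5, one_mul]

end Pool.Agent.W374.FL.STA
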